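import Mathlib
import Pool.Agent.H.MP_e50cbd_co.D

set_option autoImplicit false

namespace Pool.Agent.Results.MP_e50cbd_co.Yes

/-- A legal move: piece `i` jumps over piece `j`. -/
def Jump {N : ℕ} (p q : Fin N → ℂ) : Prop :=
  ∃ i j : Fin N, i ≠ j ∧ q = Function.update p i (2 * p j - p i)

/-- The vertex set of the regular `N`-gon with centre `c` and a vertex at `c + w`. -/
def Vert (N : ℕ) (c w : ℂ) : Set ℂ :=
  Set.range fun j : Fin N => c + w * Complex.exp (2 * Real.pi * Complex.I * (j : ℕ) / N)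

theorem result : ∀ N : ℕ, N = 5 ∨ 7 ≤ N → ∀ c w : ℂ, w ≠ 0 → ∀ p : Fin N → ℂ,
    Set.range p = Vert N c w → ∃ k ≤ 100 * N ^ 5, ∃ s : ℕ → Fin N → ℂ, s 0 = p ∧
      (∀ t < k, Jump (s t) (s (t + 1))) ∧
      ∃ c' w' : ℂ, ‖w‖ < ‖w'‖ ∧ Set.range (s k) = Vert N c' w' := by
  intro N hN c w hw p hp
  obtain ⟨q, h1, h2⟩ := Pool.Agent.H.MP_e50cbd_co.final hN c w hw p hp
  obtain ⟨k, hk, s, h0, h3, rfl⟩ := h1.seq
  exact ⟨k, hk, s, h0, h3, h2⟩

end Pool.Agent.Results.MP_e50cbd_co.Yes
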